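import Pool.Agent.helper96.DP.SpecE
import Pool.Agent.helper96.DP.Basic

/-!
# Project dp, part E: lower bounds at bounded ratio (module LB)
-/

namespace DP

open MeasureTheory

/-- The chain of cells of size `ℓ` on the ray number `l`, from radius `1020 ℓ` to `4096 ℓ`. -/
def LB_gs (x : V) (ℓ l : ℕ) : List V :=
  (List.range 1539).map fun t => zpt x (1020 * ℓ + 2 * t * ℓ) l

theorem LB_len (x : V) (ℓ l : ℕ) : (LB_gs x ℓ l).length = 1539 := by simp [LB_gs]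

theorem LB_ne (x : V) (ℓ l : ℕ) : LB_gs x ℓ l ≠ [] := by
  intro h
  have := LB_len x ℓ l
  rw [h] at this
  simp at this

theorem LB_gnb (x : V) (ℓ l r : ℕ) : gnb ℓ (zpt x r l) (zpt x (r + 2 * ℓ) l) := by
  unfold gnb zpt
  split_ifs
  · left; simp only [Prod.mk.injEq, and_true]; push_cast; ring
  · right; right; left; simp only [Prod.mk.injEq, true_and]; push_cast; ring
  · right; left; simp only [Prod.mk.injEq, and_true]; push_cast; ring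
  · right; right; right; simp only [Prod.mk.injEq, true_and]; push_cast; ring

theorem LB_chn (x : V) (ℓ l : ℕ) : Chn ℓ (LB_gs x ℓ l) := by
  unfold Chn LB_gs
  rw [List.isChain_map, List.isChain_range]
  intro m hm
  have h := LB_gnb x ℓ l (1020 * ℓ + 2 * m * ℓ)
  have h2 : 1020 * ℓ + 2 * m.succ * ℓ = 1020 * ℓ + 2 * m * ℓ + 2 * ℓ := by
    simp only [Nat.succ_eq_add_one]; ring
  rw [h2]
  exact h

/-- Points of the region are near the ray. -/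
theorem LB_reg {x : V} {ℓ l : ℕ} {v : V} (hv : v ∈ reg ℓ (LB_gs x ℓ l)) :
    ∃ r : ℕ, 1020 * ℓ ≤ r ∧ sd (zpt x r l) v < 3 * ℓ := by
  obtain ⟨g, hg, hgv⟩ := hv
  simp only [LB_gs, List.mem_map, List.mem_range] at hg
  obtain ⟨t, ht, rfl⟩ := hg
  exact ⟨_, Nat.le_add_right _ _, hgv⟩

/-- On the circle of radius `R` they are near the standard point. -/
theorem LB_near {x : V} {ℓ l R : ℕ} {v : V} (hl : l < 4) (hv : v ∈ reg ℓ (LB_gs x ℓ l))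
    (hR : sd x v = R) : sd (zpt x R l) v ≤ 3 * ℓ := by
  obtain ⟨r, hr, h⟩ := LB_reg hv
  interval_cases l <;> simp only [zpt, sd] at * <;> norm_num at * <;> omega

/-- They are far from the standard points of the other colour. -/
theorem LB_far {x : V} {ℓ l l' R : ℕ} {v : V} (hl : l < 4) (hl' : l' < 4) (hk : kol l ≠ kol l')
    (hv : v ∈ reg ℓ (LB_gs x ℓ l)) : 1017 * ℓ < sd (zpt x R l') v := by
  obtain ⟨r, hr, h⟩ := LB_reg hv
  interval_cases l <;> interval_cases l' <;> simp only [zpt, sd, kol] at * <;> norm_num at * <;>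
    omega

/-- The first and the last cell. -/
theorem LB_mem (x : V) (ℓ l t : ℕ) (ht : t < 1539) :
    zpt x (1020 * ℓ + 2 * t * ℓ) l ∈ LB_gs x ℓ l :=
  List.mem_map.2 ⟨t, List.mem_range.2 ht, rfl⟩

/-- Loops in the chain give an arm near the ray. -/
theorem LB_con (hCH2 : CH2_stmt) (c : V → Bool) (k : Bool) (x : V) (ℓ l : ℕ) (hl : l < 4)
    (hℓ : 1 ≤ ℓ) (hF : Full c k ℓ (LB_gs x ℓ l)) :
    ∃ p q, sd x p = 1024 * ℓ ∧ sd x q = 4096 * ℓ ∧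
      Con ({v | v ∈ reg ℓ (LB_gs x ℓ l) ∧ c v = k} ∩ ann x (1024 * ℓ) (4096 * ℓ)) p q := by
  obtain ⟨U, hU, hUc, -, hH⟩ := hCH2 c k ℓ _ hF (LB_chn x ℓ l) (LB_ne x ℓ l) hℓ
  obtain ⟨⟨a1, ha1, hA1⟩, ⟨a2, ha2, hA2⟩, ⟨a3, ha3, hA3⟩, a4, ha4, hA4⟩ :=
    hH _ (LB_mem x ℓ l 0 (by norm_num))
  obtain ⟨⟨b1, hb1, hB1⟩, ⟨b2, hb2, hB2⟩, ⟨b3, hb3, hB3⟩, b4, hb4, hB4⟩ :=
    hH _ (LB_mem x ℓ l 1538 (by norm_num))
  have key : ∃ z ∈ U, ∃ z' ∈ U, sd x z ≤ 1024 * ℓ ∧ 4096 * ℓ ≤ sd x z' := by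
    interval_cases l
    · refine ⟨_, hA2, _, hB1, ?_, ?_⟩
      · obtain ⟨r, hr, h⟩ := LB_reg (hU _ hA2).1
        simp only [zpt, sd] at *
        norm_num at *
        omega
      · simp only [zpt, sd] at *
        norm_num at *
        omega
    · refine ⟨_, hA4, _, hB3, ?_, ?_⟩
      · obtain ⟨r, hr, h⟩ := LB_reg (hU _ hA4).1
        simp only [zpt, sd] at *
        norm_num at *
        omega
      · simp only [zpt, sd] at *
        norm_num at *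
        omega
    · refine ⟨_, hA1, _, hB2, ?_, ?_⟩
      · obtain ⟨r, hr, h⟩ := LB_reg (hU _ hA1).1
        simp only [zpt, sd] at *
        norm_num at *
        omega
      · simp only [zpt, sd] at *
        norm_num at *
        omega
    · refine ⟨_, hA3, _, hB4, ?_, ?_⟩
      · obtain ⟨r, hr, h⟩ := LB_reg (hU _ hA3).1
        simp only [zpt, sd] at *
        norm_num at *
        omega
      · simp only [zpt, sd] at *
        norm_num at *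
        omega
  obtain ⟨z, hz, z', hz', h1, h2⟩ := key
  obtain ⟨p, q, hp, hq, hpq, -, -⟩ := (hUc z hz z' hz').cross h1 (by omega) h2
  refine ⟨p, q, hp, hq, hpq.mono ?_⟩
  rintro v ⟨hv1, hv2⟩
  exact ⟨hU v hv1, hv2⟩

/-- The loops in the chains of all rays. -/
def LB_E (c : V → Bool) (x : V) (ℓ : ℕ) : Prop :=
  Full c true ℓ (LB_gs x ℓ 0 ++ LB_gs x ℓ 2) ∧ Full c false ℓ (LB_gs x ℓ 1 ++ LB_gs x ℓ 3)

theorem LB_full {c : V → Bool} {x : V} {ℓ : ℕ} (h : LB_E c x ℓ) (l : ℕ) (hl : l < 4) :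
    Full c (kol l) ℓ (LB_gs x ℓ l) := by
  interval_cases l
  · exact fun g hg => h.1 g (List.mem_append_left _ hg)
  · exact fun g hg => h.2 g (List.mem_append_left _ hg)
  · exact fun g hg => h.1 g (List.mem_append_right _ hg)
  · exact fun g hg => h.2 g (List.mem_append_right _ hg)

/-- The arm number `l` from the event `LB_E`. -/
theorem LB_arm (hCH2 : CH2_stmt) {c : V → Bool} {x : V} {ℓ : ℕ} (hℓ : 1 ≤ ℓ) (h : LB_E c x ℓ)
    (l : ℕ) (hl : l < 4) :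
    ∃ p q, p ∈ bd x (1024 * ℓ) ∧ q ∈ bd x (4096 * ℓ) ∧ sd (zpt x (1024 * ℓ) l) p ≤ 3 * ℓ ∧
      sd (zpt x (4096 * ℓ) l) q ≤ 3 * ℓ ∧
      Conn c (kol l) {v | (1024 * ℓ ≤ sd x v ∧ sd x v ≤ 4096 * ℓ) ∧ ∀ l' < 4, kol l' ≠ kol l →
        ∀ R, 1017 * ℓ < sd (zpt x R l') v} p q := by
  obtain ⟨p, q, hp, hq, hpq⟩ := LB_con hCH2 c (kol l) x ℓ l hl hℓ (LB_full h l hl)
  refine ⟨p, q, hp, hq, LB_near hl hpq.mem_left.1.1 hp, LB_near hl hpq.mem_right.1.1 hq,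
    hpq.mono ?_⟩
  rintro v ⟨⟨hv1, hv2⟩, hv3⟩
  exact ⟨⟨hv3, fun l' hl' hk R => LB_far hl hl' (Ne.symm hk) hv1⟩, hv2⟩

theorem LB_std1 (hCH2 : CH2_stmt) {c : V → Bool} {x : V} {ℓ : ℕ} (hℓ : 1 ≤ ℓ) (h : LB_E c x ℓ)
    (j : ℕ) (hj : j ≤ 4) : Std c j true x (4096 * ℓ) (Dfree true x (1024 * ℓ)) := by
  refine ⟨Or.inl fun l hl hk => ?_, Or.inl fun l hl hk => ?_⟩
  all_goals
    obtain ⟨p, q, hp, hq, -, h2, h3⟩ := LB_arm hCH2 hℓ h l (by omega)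
    refine ⟨p, hp, q, hq, by omega, ?_⟩
    rw [hk] at h3
    refine h3.mono ?_
    rintro v ⟨⟨hv1, hv2⟩, hv3⟩
    refine ⟨?_, ?_⟩
    · simp only [HS, if_true]
      exact hv2
    · rintro (hv | ⟨l', hl', hk', hv⟩)
      · simp only [Dfree, if_true, Set.mem_ofPred_eq] at hv
        omega
      · have := hv3 l' (by omega) hk' (4096 * ℓ)
        omega

theorem LB_std2 (hCH2 : CH2_stmt) {c : V → Bool} {x : V} {ℓ : ℕ} (hℓ : 1 ≤ ℓ) (h : LB_E c x ℓ)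
    (j : ℕ) (hj : j ≤ 4) : Std c j true x (4096 * ℓ) (Dmark j x (1024 * ℓ)) := by
  refine ⟨Or.inl fun l hl hk => ?_, Or.inl fun l hl hk => ?_⟩
  all_goals
    obtain ⟨p, q, hp, hq, h1, h2, h3⟩ := LB_arm hCH2 hℓ h l (by omega)
    refine ⟨p, ⟨hp, by omega⟩, q, hq, by omega, ?_⟩
    rw [hk] at h3
    refine h3.mono ?_
    rintro v ⟨⟨hv1, hv2⟩, hv3⟩
    refine ⟨?_, ?_⟩
    · simp only [HS, if_true]
      exact hv2
    · rintro ((hv | ⟨l', hl', hk', hv⟩) | ⟨l', hl', hk', hv⟩)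
      · simp only [Set.mem_ofPred_eq] at hv
        omega
      · have := hv3 l' (by omega) hk' (1024 * ℓ)
        omega
      · have := hv3 l' (by omega) hk' (4096 * ℓ)
        omega

theorem LB_std3 (hCH2 : CH2_stmt) {c : V → Bool} {x : V} {ℓ : ℕ} (hℓ : 1 ≤ ℓ) (h : LB_E c x ℓ)
    (j : ℕ) (hj : j ≤ 4) : Std c j false x (1024 * ℓ) (Dfree false x (4096 * ℓ)) := by
  refine ⟨Or.inl fun l hl hk => ?_, Or.inl fun l hl hk => ?_⟩
  all_goals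
    obtain ⟨p, q, hp, hq, h1, h2, h3⟩ := LB_arm hCH2 hℓ h l (by omega)
    refine ⟨q, hq, p, hp, by omega, ?_⟩
    rw [hk] at h3
    refine (h3.mono ?_).symm
    rintro v ⟨⟨hv1, hv2⟩, hv3⟩
    refine ⟨?_, ?_⟩
    · simp only [HS, Bool.false_eq_true, if_false]
      exact hv1
    · rintro (hv | ⟨l', hl', hk', hv⟩)
      · simp only [Dfree, Bool.false_eq_true, if_false, Set.mem_ofPred_eq] at hv
        omega
      · have := hv3 l' (by omega) hk' (1024 * ℓ)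
        omega

/-- The regions of the black and the white chains are disjoint. -/
theorem LB_disj (x : V) (ℓ : ℕ) : Disjoint (reg ℓ (LB_gs x ℓ 0 ++ LB_gs x ℓ 2))
    (reg ℓ (LB_gs x ℓ 1 ++ LB_gs x ℓ 3)) := by
  have key : ∀ l l' : ℕ, l < 4 → l' < 4 → kol l ≠ kol l' → ∀ v, v ∈ reg ℓ (LB_gs x ℓ l) →
      v ∈ reg ℓ (LB_gs x ℓ l') → False := by
    intro l l' hl hl' hk v hv hv'
    obtain ⟨r, hr, h⟩ := LB_reg hv'
    have h1 := LB_far (R := r) hl hl' hk hv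
    omega
  rw [Set.disjoint_left]
  rintro v ⟨g, hg, hgv⟩ ⟨g', hg', hgv'⟩
  rcases List.mem_append.1 hg with hg | hg <;> rcases List.mem_append.1 hg' with hg' | hg'
  · exact key 0 1 (by norm_num) (by norm_num) (by decide) v ⟨g, hg, hgv⟩ ⟨g', hg', hgv'⟩
  · exact key 0 3 (by norm_num) (by norm_num) (by decide) v ⟨g, hg, hgv⟩ ⟨g', hg', hgv'⟩
  · exact key 2 1 (by norm_num) (by norm_num) (by decide) v ⟨g, hg, hgv⟩ ⟨g', hg', hgv'⟩
  · exact key 2 3 (by norm_num) (by norm_num) (by decide) v ⟨g, hg, hgv⟩ ⟨g', hg', hgv'⟩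

theorem LB (hC1 : C1_stmt) (hCH2 : CH2_stmt) (hCH3 : CH3_stmt) (hCH4 : CH4_stmt)
    (hInd : Bindep_stmt) (hMono : Bmono_stmt) : LB_stmt := by
  obtain ⟨c₀, hc₀, ℓ₀, hℓ₀, hC⟩ := hC1
  refine ⟨c₀ ^ (2 * 3078) * c₀ ^ (2 * 3078), by positivity, ℓ₀ + 10, ?_⟩
  intro j ρ x i hj hρ hx hi
  obtain ⟨m, rfl⟩ : ∃ m, i = m + 10 := ⟨i - 10, by omega⟩
  have hm : ℓ₀ ≤ 2 ^ m := le_trans (by omega) (Nat.lt_two_pow_self (n := m)).le
  have e1 : 2 ^ (m + 10) = 1024 * 2 ^ m := by rw [pow_add]; ring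
  have e2 : 2 ^ (m + 10 + 2) = 4096 * 2 ^ m := by rw [pow_add, pow_add]; ring
  rw [e2, e1]
  set ℓ := 2 ^ m with hℓ
  have h1 : 1 ≤ ℓ := by omega
  have hj4 : j ≤ 4 := by omega
  have hQ : c₀ ^ (2 * 3078) * c₀ ^ (2 * 3078) ≤
      Q ρ (Ev fun c => LB_E c x ℓ) (Ev fun c => LB_E c x ℓ) := by
    have hE : (Ev fun c => LB_E c x ℓ) = (Ev fun c => Full c true ℓ (LB_gs x ℓ 0 ++ LB_gs x ℓ 2)) ∩
        (Ev fun c => Full c false ℓ (LB_gs x ℓ 1 ++ LB_gs x ℓ 3)) := rfl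
    rw [hE, hInd ρ _ _ _ _ _ _ (LB_disj x ℓ) (hCH4 ℓ true _).1 (hCH4 ℓ true _).1
      (hCH4 ℓ false _).1 (hCH4 ℓ false _).1]
    have hb := hCH3 c₀ ℓ true ρ (LB_gs x ℓ 0 ++ LB_gs x ℓ 2) hρ hc₀.le (fun g => hC true g ℓ hm)
    have hw := hCH3 c₀ ℓ false ρ (LB_gs x ℓ 1 ++ LB_gs x ℓ 3) hρ hc₀.le (fun g => hC false g ℓ hm)
    rw [List.length_append, LB_len, LB_len] at hb hw
    exact mul_le_mul hb hw (by positivity) (le_trans (by positivity) hb)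
  refine ⟨hQ.trans (hMono _ _ _ _ _ ?_ ?_), hQ.trans (hMono _ _ _ _ _ ?_ ?_),
    hQ.trans (hMono _ _ _ _ _ ?_ ?_)⟩
  · exact fun b hb => LB_std1 hCH2 h1 hb j hj4
  · exact fun b hb => LB_std1 hCH2 h1 hb j hj4
  · exact fun b hb => LB_std2 hCH2 h1 hb j hj4
  · exact fun b hb => LB_std2 hCH2 h1 hb j hj4
  · exact fun b hb => LB_std3 hCH2 h1 hb j hj4
  · exact fun b hb => LB_std3 hCH2 h1 hb j hj4

end DP
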